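import Pool.Agent.helper51.QS.SpecB
import Pool.Agent.helper13.PC.ASA

/-!
# Row qs:GHM (MP_74cfa5_ag)
-/

set_option autoImplicit false

namespace Pool.Agent.QS

open Pool.Agent.PC

universe u

theorem GHM_eq {R : Type u} [CommRing R] (S P : Ideal R) (hS : S.IsPrime) (hP : P.IsPrime)
    (hS1 : S.height = 1) (hP1 : P.height = 1) (h : S ≤ P) : P = S := by
  by_contra hne
  have hlt : S < P := lt_of_le_of_ne h (fun e => hne e.symm)
  haveI := hS
  haveI := hP
  haveI : S.FiniteHeight := ⟨Or.inr (by rw [hS1]; decide)⟩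
  have h2 := Ideal.height_strict_mono_of_isPrime hlt
  rw [hS1, hP1] at h2
  exact lt_irrefl _ h2

theorem GHM (hETJ : ETJ_stmt.{u}) (hLRF : LRF_stmt.{u}) (hEHQ : EHQ_stmt.{u}) (hHTP : HTP_stmt.{u}) :
    GHM_stmt.{u} := by
  intro k R A F K G _ _ _ _ _ _ _ _ _ _ _ _ _ _ _ _ _ _ _ _ _ _ _ _ _ _ _ _ _ _ _ _ _ _ n D y hy Ψ hΨ
    hcod S B ω μ g hω hg hμ hB m hm hC Q v hQ hQ1 hQm hv
  haveI : Infinite k := inferInstance
  have hP1 : (Q.comap (algebraMap R A)).height = 1 := (hHTP R A G).1 Q hQ hQ1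
  have hPp : (Q.comap (algebraMap R A)).IsPrime := Ideal.comap_isPrime _ _
  have hPm : Q.comap (algebraMap R A) ≤ m.comap (algebraMap R A) := Ideal.comap_mono hQm
  obtain ⟨O, w, hO, hR⟩ := hLRF R A F K Q (Q.comap (algebraMap R A)) hQ rfl hP1 v hv
  have h1 := hETJ k R A K G Q hQ (fun g hg => hcod g hg Q hQ hQ1) n D y
  have hdet : (JJ D fun i => algebraMap A K (y i)) = 1 := by
    unfold JJ
    have : (Matrix.of fun i j => D j (algebraMap A K (y i))) = (1 : Matrix (Fin n) (Fin n) K) := by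
      ext i j
      rw [Matrix.of_apply, hy j i, Matrix.one_apply]
      by_cases hij : i = j
      · rw [if_pos hij, if_pos hij.symm]
      · rw [if_neg hij, if_neg (fun e => hij e.symm)]
    rw [this, Matrix.det_one]
  rw [hdet] at h1
  have h2 : (1 : K) ∈ AddSubgroup.closure {z | ∃ o : K, Ge v 0 o ∧ ∃ c : Fin n → F, (∀ i, c i ∈ O) ∧
      z = o * JJ D fun l => algebraMap F K (c l)} := by
    refine AddSubgroup.closure_mono ?_ h1
    rintro z ⟨o, ⟨x, s, hs, ho⟩, c, hz⟩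
    refine ⟨o, (hv.2.1 o).2 ⟨x, s, hs, ho⟩, fun l => algebraMap R F (c l), fun i => ?_, ?_⟩
    · refine (hO _).2 ⟨c i, 1, ?_, ?_⟩
      · exact fun h => hPp.ne_top ((Ideal.eq_top_iff_one _).2 h)
      · rw [map_one, div_one]
    · rw [hz]
      congr 2
      funext l
      rw [← IsScalarTower.algebraMap_apply R A K, ← IsScalarTower.algebraMap_apply R F K]
  obtain ⟨s, t, hs, ht, hst⟩ := hC (Q.comap (algebraMap R A)) O hPp hP1 hPm hO
  rw [add_assoc] at hst
  have hBP := hB.2.2.2.1 (Q.comap (algebraMap R A))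
  have hΨ0 : Ψ ω ≠ 0 := fun h => hω (hΨ.2.1 ω h)
  have hg0 : algebraMap F K g ≠ 0 := by
    rw [Ne, map_eq_zero]
    exact hg
  have hval : v (algebraMap F K g / Ψ ω ^ μ) = v (algebraMap F K g) - μ * v (Ψ ω) := by
    rw [ASA_div hv.1 hg0 (pow_ne_zero μ hΨ0), ASA_pow hv.1 hΨ0]
  rw [hval]
  have key := fun b : ℤ => hEHQ k F K n D Ψ hΨ v hv.1 O w hR h2 ω g μ s t b _ hω hg hμ hs ht hst
  have hβ : (0 : ℚ) ≤ (if Q.comap (algebraMap R A) = S then 1 else 0) + B (Q.comap (algebraMap R A)) := by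
    refine add_nonneg ?_ hBP.1
    split_ifs <;> norm_num
  constructor
  · have h3 := key 0 hβ (by simpa using hβ)
    rwa [mul_zero] at h3
  · intro hSP
    have hPS : Q.comap (algebraMap R A) = S := GHM_eq S _ hB.1 hPp hB.2.1 hP1 hSP
    have h3 := key 1 hβ (by rw [if_pos hPS]; push_cast; linarith [hBP.1])
    rwa [mul_one] at h3

end Pool.Agent.QS
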