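import Pool.Agent.helper51.QS.SpecA

/-!
# Row WCT of project qs: the centre of a monomial valuation
-/

set_option autoImplicit false

namespace Pool.Agent.QS

open Pool.Agent.PC MvPolynomial

universe u

theorem WCT_weight {n : ℕ} (w : Fin n → ℕ) (α : Fin n →₀ ℕ) :
    Finsupp.weight w α < 1 ↔ ∀ i, 0 < w i → α i = 0 := by
  rw [Nat.lt_one_iff, Finsupp.weight_apply, Finsupp.sum_fintype α (fun i c => c • w i)
    (fun i => zero_smul ℕ (w i))]
  rw [Finset.sum_eq_zero_iff]
  constructor
  · intro h i hi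
    have h1 := h i (Finset.mem_univ i)
    rw [smul_eq_mul, Nat.mul_eq_zero] at h1
    rcases h1 with h1 | h1
    · exact h1
    · omega
  · intro h i _
    rcases Nat.eq_zero_or_pos (w i) with h1 | h1
    · rw [h1, smul_zero]
    · rw [h i h1, zero_smul]

open Classical in
theorem WCT_mem {k : Type u} [Field k] {n : ℕ} (w : Fin n → ℕ) (f : MvPowerSeries (Fin n) k)
    (hf : ∀ α, (∀ i, 0 < w i → α i = 0) → MvPowerSeries.coeff α f = 0)
    (J : Ideal (MvPowerSeries (Fin n) k)) (hJ : ∀ i, 0 < w i → MvPowerSeries.X i ∈ J) : f ∈ J := by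
  let P : (Fin n →₀ ℕ) → Fin n → Prop := fun α i =>
    (0 < w i ∧ α i ≠ 0) ∧ ∀ j, j < i → ¬ (0 < w j ∧ α j ≠ 0)
  let g : Fin n → MvPowerSeries (Fin n) k := fun i α =>
    if P α i then MvPowerSeries.coeff α f else 0
  have hg : ∀ i α, MvPowerSeries.coeff α (g i) = if P α i then MvPowerSeries.coeff α f else 0 :=
    fun i α => rfl
  have hsum : f = ∑ i, g i := by
    ext α
    rw [map_sum]
    simp only [hg]
    by_cases h : ∃ i, 0 < w i ∧ α i ≠ 0
    · let s : Finset (Fin n) := Finset.univ.filter fun i => 0 < w i ∧ α i ≠ 0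
      have hs : s.Nonempty := by
        obtain ⟨i, hi⟩ := h
        exact ⟨i, Finset.mem_filter.2 ⟨Finset.mem_univ _, hi⟩⟩
      have h1 : P α (s.min' hs) := by
        refine ⟨(Finset.mem_filter.1 (s.min'_mem hs)).2, fun j hj hjj => ?_⟩
        have h2 := s.min'_le j (Finset.mem_filter.2 ⟨Finset.mem_univ _, hjj⟩)
        exact absurd hj (not_lt.2 h2)
      rw [Finset.sum_eq_single (s.min' hs), if_pos h1]
      · intro i _ hi
        rw [if_neg]
        intro h2
        rcases lt_trichotomy i (s.min' hs) with h3 | h3 | h3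
        · exact h1.2 i h3 h2.1
        · exact hi h3
        · exact h2.2 _ h3 h1.1
      · intro h2
        exact absurd (Finset.mem_univ _) h2
    · rw [hf α, Finset.sum_eq_zero]
      · intro i _
        rw [if_neg]
        intro h1
        exact h ⟨i, h1.1⟩
      · intro i hi
        by_contra h1
        exact h ⟨i, hi, h1⟩
  rw [hsum]
  refine Ideal.sum_mem _ fun i _ => ?_
  by_cases hi : 0 < w i
  · have h1 : (MvPowerSeries.X i : MvPowerSeries (Fin n) k) ∣ g i := by
      rw [MvPowerSeries.X_dvd_iff]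
      intro α hα
      rw [hg, if_neg]
      intro h2
      exact h2.1.2 hα
    exact J.mem_of_dvd h1 (hJ i hi)
  · have h1 : g i = 0 := by
      ext α
      rw [hg, if_neg, map_zero]
      intro h2
      exact hi h2.1.1
    rw [h1]
    exact J.zero_mem

theorem WCT (hFFL : FFL_stmt.{u}) : WCT_stmt.{u} := by
  intro k A K _ _ _ _ _ _ _ _ n m _ y φ hT w v hv a
  have hJ0 : ∀ i, 0 < w i → y i ∈ Ideal.span {b | ∃ i, 0 < w i ∧ b = y i} :=
    fun i hi => Ideal.subset_span ⟨i, hi, rfl⟩
  have h1 : ∀ b : A, Ge v 1 (algebraMap A K b) ↔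
      ∀ α : Fin n →₀ ℕ, (∀ i, 0 < w i → α i = 0) → MvPowerSeries.coeff α (φ b) = 0 := by
    intro b
    have h2 := hv.2 b 1
    rw [Nat.cast_one] at h2
    rw [h2]
    exact forall_congr' fun α => by rw [WCT_weight]
  constructor
  · intro ha
    refine hFFL k A n m y φ hT _ a ?_
    refine WCT_mem w (φ a) ((h1 a).1 ha) _ ?_
    intro i hi
    rw [← hT.1 i]
    exact Ideal.mem_map_of_mem φ (hJ0 i hi)
  · rintro ⟨s, hs, hsa⟩
    -- the elements of the ideal have value at least one
    have h2 : ∀ b ∈ Ideal.span {b | ∃ i, 0 < w i ∧ b = y i},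
        ∀ α : Fin n →₀ ℕ, (∀ i, 0 < w i → α i = 0) → MvPowerSeries.coeff α (φ b) = 0 := by
      intro b hb
      refine Submodule.span_induction (p := fun b _ => ∀ α : Fin n →₀ ℕ,
        (∀ i, 0 < w i → α i = 0) → MvPowerSeries.coeff α (φ b) = 0) ?_ ?_ ?_ ?_ hb
      · rintro b ⟨i, hi, rfl⟩ α hα
        rw [hT.1 i]
        have h3 : (MvPowerSeries.X i : MvPowerSeries (Fin n) k) ∣ MvPowerSeries.X i := dvd_rfl
        rw [MvPowerSeries.X_dvd_iff] at h3
        exact h3 α (hα i hi)
      · intro α _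
        simp
      · intro b c _ _ hb hc α hα
        rw [map_add, map_add, hb α hα, hc α hα, add_zero]
      · intro c b _ hb α hα
        rw [smul_eq_mul, map_mul, MvPowerSeries.coeff_mul]
        refine Finset.sum_eq_zero fun p hp => ?_
        rw [Finset.HasAntidiagonal.mem_antidiagonal] at hp
        rw [hb p.2, mul_zero]
        intro i hi
        have h3 := hα i hi
        rw [← hp, Finsupp.add_apply] at h3
        omega
    have h3 : Ge v 1 (algebraMap A K (s * a)) := (h1 _).2 (h2 _ hsa)
    -- `v s = 0`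
    have hs1 : ¬ Ge v 1 (algebraMap A K s) := by
      rw [h1]
      intro h4
      apply hs
      have h5 := (hT.2 1 s).2 ?_
      · rwa [pow_one] at h5
      · intro α hα
        have h6 : α = 0 := by
          rw [← Finsupp.degree_eq_zero_iff]
          omega
        rw [h6]
        exact h4 0 fun i _ => rfl
    have hs0 : algebraMap A K s ≠ 0 := fun h => hs1 (Or.inl h)
    have hs2 : v (algebraMap A K s) ≤ 0 := by
      by_contra h
      exact hs1 (Or.inr (by omega))
    rcases eq_or_ne (algebraMap A K a) 0 with ha | ha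
    · exact Or.inl ha
    · right
      rw [map_mul] at h3
      rcases h3 with h3 | h3
      · exact absurd h3 (mul_ne_zero hs0 ha)
      · rw [hv.1.mul _ _ hs0 ha] at h3
        omega

end Pool.Agent.QS
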